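import Pool.Agent.H59.Thin.Words

open Finset

namespace Pool.Agent.H59.Thin

universe u

variable {Γ : Type u} [Group Γ] [DecidableEq Γ] {n : ℕ} (s : Fin n → Γ)
  {𝓖 : Set (List (Fin n × Bool) × List (Fin n × Bool))}

theorem not_red {a : Fin n × Bool} {w : List (Fin n × Bool)} (hw : FreeGroup.IsReduced w)
    (h : ¬ FreeGroup.IsReduced (a :: w)) : ∃ b w', w = b :: w' ∧ a = inv b := by
  cases w with
  | nil => exact absurd FreeGroup.IsReduced.singleton h
  | cons b w' =>
    refine ⟨b, w', rfl, ?_⟩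
    rw [FreeGroup.isReduced_cons_cons] at h
    have h1 : ¬ (a.1 = b.1 → a.2 = b.2) := fun h2 => h ⟨h2, hw⟩
    push Not at h1
    rcases a with ⟨i, x⟩
    rcases b with ⟨j, y⟩
    simp only at h1
    simp only [inv, Prod.mk.injEq]
    refine ⟨h1.1, ?_⟩
    cases x <;> cases y <;> simp_all

/-- the finite set of completions -/
noncomputable def comp {L : ℕ} (hL : LThin L 𝓖) (z : List (Fin n × Bool)) (j : ℕ) :
    Finset (List (Fin n × Bool)) :=
  (Set.finite_of_encard_le_coe (hL.2 z j)).toFinset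

theorem card_comp {L : ℕ} (hL : LThin L 𝓖) (z : List (Fin n × Bool)) (j : ℕ) :
    #(comp hL z j) ≤ L ^ j := by
  have h := hL.2 z j
  rw [← Set.Finite.coe_toFinset (Set.finite_of_encard_le_coe h), Set.encard_coe_eq_coe_finsetCard]
    at h
  exact_mod_cast h

theorem mem_comp {L : ℕ} (hL : LThin L 𝓖) (z q : List (Fin n × Bool)) (j : ℕ) :
    q ∈ comp hL z j ↔ q.length = j ∧ ∃ p, p <+: z ∧ (q, p) ∈ 𝓖 := by
  simp [comp]

theorem not_avoids {L : ℕ} (hL : LThin L 𝓖) {F : Finset Γ} {v : Γ} (hv : v ∈ F) {t : ℕ}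
    {a : Fin n × Bool} {w : List (Fin n × Bool)} (hw : w ∈ P s 𝓖 F v t)
    (h : ¬ Avoids 𝓖 (a :: w)) :
    ∃ k ∈ Finset.range (t + 1), ∃ z ∈ P s 𝓖 F v k, ∃ q ∈ comp hL z (t + 1 - k),
      a :: w = q ++ z := by
  have hg := good_of_mem_P s 𝓖 hL.1 hv hw
  have hl := length_of_mem_P s 𝓖 hw
  unfold Avoids at h
  push Not at h
  obtain ⟨⟨q, p⟩, hx, l, r, hlr⟩ := h
  simp only at hlr
  have hq0 : q ≠ [] := hL.1 _ hx
  cases l with
  | cons b l =>
    exfalso
    simp only [List.cons_append, List.cons.injEq] at hlr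
    exact hg.2.2 _ hx ⟨l, r, by simpa using hlr.2⟩
  | nil =>
    cases q with
    | nil => exact absurd rfl hq0
    | cons b q =>
      simp only [List.nil_append, List.cons_append, List.append_assoc, List.cons.injEq] at hlr
      obtain ⟨rfl, hw2⟩ := hlr
      have hlen : q.length + (p.length + r.length) = t := by
        rw [← hl, ← hw2]
        simp
      have hd : w.drop q.length = p ++ r := by
        rw [← hw2]; simp
      have hz := drop_mem_P s 𝓖 (j := q.length) (by omega) hw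
      rw [hd] at hz
      refine ⟨t - q.length, Finset.mem_range.2 (by omega), _, hz, b :: q, ?_, ?_⟩
      · rw [mem_comp]
        refine ⟨?_, p, List.prefix_append _ _, hx⟩
        simp only [List.length_cons]
        omega
      · rw [← hw2]
        simp

theorem card_step {L D : ℕ} (hL : LThin L 𝓖) {F : Finset Γ} {v : Γ} (hv : v ∈ F)
    (hF : ∀ x ∈ F, D ≤ #{a : Fin n × Bool | val s a * x ∈ F}) (t : ℕ) :
    D * #(P s 𝓖 F v t) ≤ #(P s 𝓖 F v (t + 1)) + #(P s 𝓖 F v t) +
      ∑ k ∈ Finset.range (t + 1), L ^ (t + 1 - k) * #(P s 𝓖 F v k) := by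
  classical
  let Q : Finset (List (Fin n × Bool) × (Fin n × Bool)) :=
    ((P s 𝓖 F v t) ×ˢ (univ : Finset (Fin n × Bool))).filter
      (fun p => val s p.2 * en s v p.1 ∈ F)
  have hQ : D * #(P s 𝓖 F v t) ≤ #Q := by
    have h1 : #Q = ∑ w ∈ P s 𝓖 F v t, #{a : Fin n × Bool | val s a * en s v w ∈ F} := by
      simp only [Q, Finset.card_filter, Finset.sum_product]
    rw [h1, mul_comm, ← smul_eq_mul, ← Finset.sum_const]
    exact Finset.sum_le_sum fun w hw => hF _ (good_of_mem_P s 𝓖 hL.1 hv hw).1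
  let X : Finset (List (Fin n × Bool)) := Q.image (fun p => p.2 :: p.1)
  have hX : #X = #Q := by
    apply Finset.card_image_of_injective
    rintro ⟨p1, p2⟩ ⟨q1, q2⟩ hpq
    simp only [List.cons.injEq] at hpq
    rw [hpq.1, hpq.2]
  let g : List (Fin n × Bool) → List (Fin n × Bool) := fun w =>
    match w with
    | [] => []
    | b :: w' => inv b :: b :: w'
  have hsub : X ⊆ (P s 𝓖 F v (t + 1) ∪ (P s 𝓖 F v t).image g) ∪
      (Finset.range (t + 1)).biUnion (fun k => (P s 𝓖 F v k).biUnion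
        (fun z => (comp hL z (t + 1 - k)).image (fun q => q ++ z))) := by
    intro x hx
    obtain ⟨⟨w, a⟩, hp, rfl⟩ := Finset.mem_image.1 hx
    obtain ⟨hp1, hp2⟩ := Finset.mem_filter.1 hp
    have hw : w ∈ P s 𝓖 F v t := (Finset.mem_product.1 hp1).1
    have hg := good_of_mem_P s 𝓖 hL.1 hv hw
    simp only [Finset.mem_union]
    by_cases hr : FreeGroup.IsReduced (a :: w)
    · by_cases hq : Avoids 𝓖 (a :: w)
      · left; left
        exact (cons_mem_P s 𝓖 F v t a w).2 ⟨hw, ⟨hp2, hr, hq⟩⟩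
      · right
        obtain ⟨k, hk, z, hz, q, hqc, he⟩ := not_avoids s hL hv hw hq
        exact Finset.mem_biUnion.2 ⟨k, hk, Finset.mem_biUnion.2 ⟨z, hz,
          Finset.mem_image.2 ⟨q, hqc, he.symm⟩⟩⟩
    · left; right
      obtain ⟨b, w', rfl, rfl⟩ := not_red hg.2.1 hr
      exact Finset.mem_image.2 ⟨_, hw, rfl⟩
  calc D * #(P s 𝓖 F v t) ≤ #X := by rw [hX]; exact hQ
    _ ≤ _ := Finset.card_le_card hsub
    _ ≤ _ := Finset.card_union_le _ _
    _ ≤ _ := by
      refine add_le_add ((Finset.card_union_le _ _).trans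
        (add_le_add le_rfl Finset.card_image_le)) ?_
      refine Finset.card_biUnion_le.trans (Finset.sum_le_sum fun k _ => ?_)
      refine Finset.card_biUnion_le.trans ?_
      calc ∑ z ∈ P s 𝓖 F v k, #((comp hL z (t + 1 - k)).image (fun q => q ++ z))
          ≤ ∑ z ∈ P s 𝓖 F v k, L ^ (t + 1 - k) :=
            Finset.sum_le_sum fun z _ => Finset.card_image_le.trans (card_comp hL z _)
        _ = L ^ (t + 1 - k) * #(P s 𝓖 F v k) := by
            rw [Finset.sum_const, smul_eq_mul, mul_comm]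

theorem card_P {L : ℕ} (hL1 : 1 ≤ L) (hL : LThin L 𝓖) {F : Finset Γ} {v : Γ} (hv : v ∈ F)
    (hF : ∀ x ∈ F, 4 * L + 1 ≤ #{a : Fin n × Bool | val s a * x ∈ F}) (t : ℕ) :
    1 ≤ #(P s 𝓖 F v t) ∧ ∑ k ∈ Finset.range (t + 1), L ^ (t + 1 - k) * #(P s 𝓖 F v k)
      ≤ 2 * L * #(P s 𝓖 F v t) := by
  induction t with
  | zero =>
    simp [P]
    omega
  | succ t ih =>
    have h := card_step s hL hv hF t
    obtain ⟨ih1, ih2⟩ := ih
    have h2 : 2 * L * #(P s 𝓖 F v t) ≤ #(P s 𝓖 F v (t + 1)) := by nlinarith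
    refine ⟨?_, ?_⟩
    · nlinarith
    · rw [Finset.sum_range_succ]
      have h3 : ∑ k ∈ Finset.range (t + 1), L ^ (t + 1 + 1 - k) * #(P s 𝓖 F v k)
          = L * ∑ k ∈ Finset.range (t + 1), L ^ (t + 1 - k) * #(P s 𝓖 F v k) := by
        rw [Finset.mul_sum]
        refine Finset.sum_congr rfl fun k hk => ?_
        have : t + 1 + 1 - k = (t + 1 - k) + 1 := by
          have := Finset.mem_range.1 hk
          omega
        rw [this, pow_succ]
        ring
      rw [h3]
      have h4 : t + 1 + 1 - (t + 1) = 1 := by omega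
      rw [h4, pow_one]
      nlinarith [Nat.mul_le_mul_left L ih2, Nat.mul_le_mul_left L h2]

/-- a finite set of vertices all of whose degrees are at least `4 * L + 1` gives a relation -/
theorem rel_of_degree {L : ℕ} (hL1 : 1 ≤ L) (hL : LThin L 𝓖) {F : Finset Γ} (hne : F.Nonempty)
    (hF : ∀ x ∈ F, 4 * L + 1 ≤ #{a : Fin n × Bool | val s a * x ∈ F}) : HasRel s 𝓖 := by
  classical
  obtain ⟨v, hv⟩ := hne
  obtain ⟨w, hw⟩ := Finset.card_pos.1 (card_P s hL1 hL hv hF (#F)).1
  have hmaps : ∀ j ∈ Finset.range (#F + 1), en s v (w.drop j) ∈ F := by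
    intro j hj
    have hj' : j ≤ #F := by
      have := Finset.mem_range.1 hj
      omega
    exact (good_of_mem_P s 𝓖 hL.1 hv (drop_mem_P s 𝓖 hj' hw)).1
  obtain ⟨i, hi, j, hj, hij, he⟩ := Finset.exists_ne_map_eq_of_card_lt_of_maps_to
    (by simp : #F < #(Finset.range (#F + 1))) hmaps
  wlog hlt : i < j generalizing i j
  · exact this j hj i hi hij.symm he.symm (by omega)
  have hlen := length_of_mem_P s 𝓖 hw
  have hj' : j ≤ #F := by
    have := Finset.mem_range.1 hj
    omega
  let z := (w.drop i).take (j - i)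
  have hz : w.drop i = z ++ w.drop j := by
    have h1 : w.drop j = (w.drop i).drop (j - i) := by
      rw [List.drop_drop]
      congr 1
      omega
    rw [h1]
    exact (List.take_append_drop _ _).symm
  have hinf : z <:+: w :=
    ((List.take_prefix _ _).isInfix).trans (List.drop_suffix _ _).isInfix
  have hgood := good_of_mem_P s 𝓖 hL.1 hv hw
  have hzlen : z.length = j - i := by
    simp only [z, List.length_take, List.length_drop, hlen]
    omega
  refine ⟨z, ?_, red_factor hgood.2.1 hinf, hgood.2.2.factor hinf, ?_⟩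
  · intro h0
    rw [h0] at hzlen
    simp at hzlen
    omega
  · rw [hz, en_eq, en_eq, List.map_append, List.prod_append, mul_assoc] at he
    have h2 : (z.map (val s)).prod = 1 := mul_eq_right.1 he
    rw [FreeGroup.lift_mk]
    exact h2

end Pool.Agent.H59.Thin
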