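import Pool.Agent.H59.Thin.Count

open Finset
open scoped ENNReal

namespace Pool.Agent.H59.Thin

universe u

section

variable {Γ : Type u} [Group Γ] [DecidableEq Γ] {n : ℕ} (s : Fin n → Γ)
  {𝓖 : Set (List (Fin n × Bool) × List (Fin n × Bool))} {L : ℕ}

theorem exists_low (hL1 : 1 ≤ L) (hL : LThin L 𝓖) (hs : ¬ HasRel s 𝓖) {F : Finset Γ}
    (hne : F.Nonempty) : ∃ x ∈ F, #{a : Fin n × Bool | val s a * x ∈ F} ≤ 4 * L := by
  by_contra h
  push Not at h
  exact hs (rel_of_degree s hL1 hL hne fun x hx => by have := h x hx; omega)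

theorem own_finite (hL1 : 1 ≤ L) (hL : LThin L 𝓖) (hs : ¬ HasRel s 𝓖) (F : Finset Γ) :
    ∃ own : Γ → Finset (Fin n × Bool), (∀ v, #(own v) ≤ 4 * L) ∧
      ∀ v ∈ F, ∀ a, val s a * v ∈ F → a ∈ own v ∨ inv a ∈ own (val s a * v) := by
  induction F using Finset.strongInduction with
  | H F ih =>
    rcases F.eq_empty_or_nonempty with rfl | hne
    · exact ⟨fun _ => ∅, fun v => by simp, fun v hv => by simp at hv⟩
    · obtain ⟨x, hx, hdeg⟩ := exists_low s hL1 hL hs hne
      obtain ⟨own, h4, hown⟩ := ih (F.erase x) (Finset.erase_ssubset hx)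
      refine ⟨Function.update own x ({a : Fin n × Bool | val s a * x ∈ F} : Finset _), ?_, ?_⟩
      · intro v
        by_cases hv : v = x
        · subst hv
          simpa using hdeg
        · rw [Function.update_of_ne hv]
          exact h4 v
      · intro v hv a ha
        by_cases hvx : v = x
        · left
          subst hvx
          simpa using ha
        · by_cases hax : val s a * v = x
          · right
            rw [hax, Function.update_self]
            simp only [Finset.mem_filter, Finset.mem_univ, true_and]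
            rw [val_inv, ← hax]
            simpa using hv
          · rw [Function.update_of_ne hvx, Function.update_of_ne hax]
            exact hown v (Finset.mem_erase.2 ⟨hvx, hv⟩) a (Finset.mem_erase.2 ⟨hax, ha⟩)

/-- the orientation of the whole Cayley graph -/
theorem own_exists (hL1 : 1 ≤ L) (hL : LThin L 𝓖) (hs : ¬ HasRel s 𝓖) :
    ∃ own : Γ → Finset (Fin n × Bool), (∀ v, #(own v) ≤ 4 * L) ∧
      ∀ v a, a ∈ own v ∨ inv a ∈ own (val s a * v) := by
  classical
  choose o h4 ho using own_finite s hL1 hL hs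
  let U : Ultrafilter (Finset Γ) := Ultrafilter.of Filter.atTop
  have hU : (U : Filter (Finset Γ)) ≤ Filter.atTop := Ultrafilter.of_le _
  let own : Γ → Finset (Fin n × Bool) := fun v => {a | ∀ᶠ F in (U : Filter (Finset Γ)), a ∈ o F v}
  refine ⟨own, fun v => ?_, fun v a => ?_⟩
  · have h1 : ∀ᶠ F in (U : Filter (Finset Γ)), ∀ a ∈ own v, a ∈ o F v := by
      rw [Filter.eventually_all_finset]
      intro a ha
      simpa [own] using ha
    obtain ⟨F, hF⟩ := h1.exists
    exact (Finset.card_le_card fun a ha => hF a ha).trans (h4 F v)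
  · have h1 : ∀ᶠ F in (U : Filter (Finset Γ)), a ∈ o F v ∨ inv a ∈ o F (val s a * v) := by
      have h2 : ∀ᶠ F in (Filter.atTop : Filter (Finset Γ)), ({v, val s a * v} : Finset Γ) ≤ F :=
        Filter.eventually_ge_atTop _
      filter_upwards [hU h2] with F hF
      exact ho F v (hF (by simp)) a (hF (by simp))
    rcases Ultrafilter.eventually_or.1 h1 with h | h
    · left
      simpa [own] using h
    · right
      simpa [own] using h

end

/-- the kernels of a tuple without relations avoiding a thin family -/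
theorem kernel_exists {Γ : Type u} [Group Γ] {n : ℕ} (s : Fin n → Γ)
    {𝓖 : Set (List (Fin n × Bool) × List (Fin n × Bool))} {L : ℕ}
    (hL1 : 1 ≤ L) (hL : LThin L 𝓖) (hs : ¬ HasRel s 𝓖) :
    ∃ h₁ h₂ : Γ → Γ → ℝ≥0∞,
      (∀ x y, (((Set.ncard {i : Fin n | s i = x⁻¹ * y} : ℕ)) : ℝ≥0∞) ≤ h₁ x y + h₂ x y) ∧
      (∀ x, ∑' y, h₁ x y ≤ ((4 * L : ℕ) : ℝ≥0∞)) ∧
      (∀ y, ∑' x, h₂ x y ≤ ((4 * L : ℕ) : ℝ≥0∞)) := by
  classical
  obtain ⟨own, h4, hown⟩ := own_exists s hL1 hL hs
  refine ⟨fun x y => ∑ i, (if (i, false) ∈ own x⁻¹ then (if y = x * s i then 1 else 0 : ℝ≥0∞) else 0),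
    fun x y => ∑ i, (if (i, true) ∈ own y⁻¹ then (if x = y * (s i)⁻¹ then 1 else 0 : ℝ≥0∞) else 0),
    ?_, ?_, ?_⟩
  · intro x y
    have hc : (((Set.ncard {i : Fin n | s i = x⁻¹ * y} : ℕ)) : ℝ≥0∞)
        = ∑ i, (if s i = x⁻¹ * y then 1 else 0 : ℝ≥0∞) := by
      rw [Finset.sum_boole]
      congr 1
      rw [← Set.ncard_coe_finset]
      congr 1
      ext i
      simp
    rw [hc, ← Finset.sum_add_distrib]
    refine Finset.sum_le_sum fun i _ => ?_
    split_ifs with h
    all_goals try exact zero_le
    all_goals try simp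
    · exfalso
      have hy : y = x * s i := by rw [h]; group
      contradiction
    · exfalso
      have hy : y = x * s i := by rw [h]; group
      contradiction
    · exfalso
      have hy : y = x * s i := by rw [h]; group
      have hx : x = y * (s i)⁻¹ := by rw [hy]; group
      contradiction
    · exfalso
      rename_i h1 h3
      have hy : y = x * s i := by rw [h]; group
      rcases hown x⁻¹ (i, false) with h2 | h2
      · exact h1 h2
      · have h5 : val s (i, false) * x⁻¹ = y⁻¹ := by
          rw [hy]; simp [val]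
        rw [h5] at h2
        exact h3 (by simpa [inv] using h2)
  · intro x
    rw [Summable.tsum_finsetSum (fun i _ => ENNReal.summable)]
    have h1 : ∀ i : Fin n, ∑' y, (if (i, false) ∈ own x⁻¹ then
        (if y = x * s i then 1 else 0 : ℝ≥0∞) else 0)
        = if (i, false) ∈ own x⁻¹ then 1 else 0 := by
      intro i
      split_ifs with h
      · exact tsum_ite_eq _ _
      · simp
    rw [Finset.sum_congr rfl fun i _ => h1 i, ← Finset.sum_filter, Finset.sum_const]
    simp only [nsmul_eq_mul, mul_one]
    have h2 : #{i : Fin n | (i, false) ∈ own x⁻¹} ≤ 4 * L := by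
      refine le_trans ?_ (h4 x⁻¹)
      refine Finset.card_le_card_of_injOn (fun i => (i, false)) ?_ ?_
      · intro i hi
        simpa using hi
      · intro i _ j _ hij
        simpa using hij
    exact_mod_cast h2
  · intro y
    rw [Summable.tsum_finsetSum (fun i _ => ENNReal.summable)]
    have h1 : ∀ i : Fin n, ∑' x, (if (i, true) ∈ own y⁻¹ then
        (if x = y * (s i)⁻¹ then 1 else 0 : ℝ≥0∞) else 0)
        = if (i, true) ∈ own y⁻¹ then 1 else 0 := by
      intro i
      split_ifs with h
      · exact tsum_ite_eq _ _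
      · simp
    rw [Finset.sum_congr rfl fun i _ => h1 i, ← Finset.sum_filter, Finset.sum_const]
    simp only [nsmul_eq_mul, mul_one]
    have h2 : #{i : Fin n | (i, true) ∈ own y⁻¹} ≤ 4 * L := by
      refine le_trans ?_ (h4 y⁻¹)
      refine Finset.card_le_card_of_injOn (fun i => (i, true)) ?_ ?_
      · intro i hi
        simpa using hi
      · intro i _ j _ hij
        simpa using hij
    exact_mod_cast h2

end Pool.Agent.H59.Thin
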