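import Pool.Agent.H59.Thin.Top

open Finset
open scoped ENNReal

namespace Pool.Agent.H59.Thin

open Pool.Agent.H58.Lit FreeGroup

universe u

section

variable {n : ℕ}

/-- minimal words `u v u` with `L |u| ≥ |u v|` -/
def powFam (n L : ℕ) : Set (List (Fin n × Bool) × List (Fin n × Bool)) :=
  {x | ∃ u v, u ≠ [] ∧ x = (u ++ v, u) ∧ L * (u.length - 1) < (u ++ v).length ∧
    (u ++ v).length ≤ L * u.length}

/-- minimal words `u v u⁻¹` with `L |u| ≥ |u v|` -/
def invFam (n L : ℕ) : Set (List (Fin n × Bool) × List (Fin n × Bool)) :=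
  {x | ∃ u v, u ≠ [] ∧ x = (u ++ v, invRev u) ∧ L * (u.length - 1) < (u ++ v).length ∧
    (u ++ v).length ≤ L * u.length}

theorem encard_le_of_sub {α : Type*} {L j : ℕ} (hL : 1 ≤ L) (hj : 1 ≤ j) (f : ℕ → α) {X : Set α}
    (h : ∀ q ∈ X, ∃ m, L * (j - 1) < m ∧ m ≤ L * j ∧ q = f m) :
    X.encard ≤ ((L ^ j : ℕ) : ℕ∞) := by
  classical
  have h1 : X ⊆ ↑((Finset.Ioc (L * (j - 1)) (L * j)).image f) := by
    intro q hq
    obtain ⟨m, h1, h2, h3⟩ := h q hq
    simp only [Finset.coe_image, Finset.coe_Ioc, Set.mem_image, Set.mem_Ioc]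
    exact ⟨m, ⟨h1, h2⟩, h3.symm⟩
  refine (Set.encard_le_encard h1).trans ?_
  rw [Set.encard_coe_eq_coe_finsetCard]
  norm_cast
  refine Finset.card_image_le.trans ?_
  rw [Nat.card_Ioc]
  obtain ⟨i, rfl⟩ : ∃ i, j = i + 1 := ⟨j - 1, by omega⟩
  have h2 : L * (i + 1) - L * (i + 1 - 1) = L := by
    simp only [Nat.add_sub_cancel]
    rw [Nat.mul_succ]
    omega
  rw [h2]
  exact Nat.le_self_pow (by omega) L

theorem drop_of_suffix {α : Type*} {p z : List α} (h : p <:+ z) :
    z.drop (z.length - p.length) = p := by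
  obtain ⟨l, rfl⟩ := h
  simp

theorem thin_powFam {L : ℕ} (hL : 1 ≤ L) : Thin L (powFam n L) := by
  refine ⟨?_, fun z j => ?_⟩
  · rintro x ⟨u, v, hu, rfl, -, -⟩
    exact hu
  · rcases Nat.eq_zero_or_pos j with rfl | hj
    · have : {q : List (Fin n × Bool) | q.length = 0 ∧ ∃ p, p <:+ z ∧ (p, q) ∈ powFam n L} = ∅ := by
        ext q
        simp only [Set.mem_ofPred_eq, Set.mem_empty_iff_false, iff_false, not_and, not_exists]
        rintro hq p hp ⟨u, v, hu, hx, -, -⟩
        simp only [Prod.mk.injEq] at hx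
        rw [List.length_eq_zero_iff] at hq
        exact hu (hx.2.symm.trans hq)
      rw [this]
      simp
    · refine encard_le_of_sub hL hj (fun m => (z.drop (z.length - m)).take j) ?_
      rintro q ⟨hq, p, hp, u, v, hu, hx, h1, h2⟩
      simp only [Prod.mk.injEq] at hx
      obtain ⟨rfl, rfl⟩ := hx
      rw [hq] at h1 h2
      refine ⟨_, h1, h2, ?_⟩
      rw [drop_of_suffix hp, List.take_append_of_le_length (by omega), ← hq, List.take_length]

theorem thin_invFam {L : ℕ} (hL : 1 ≤ L) : Thin L (invFam n L) := by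
  refine ⟨?_, fun z j => ?_⟩
  · rintro x ⟨u, v, hu, rfl, -, -⟩
    intro h
    have := congrArg List.length h
    simp only [invRev_length, List.length_nil, List.length_eq_zero_iff] at this
    exact hu this
  · rcases Nat.eq_zero_or_pos j with rfl | hj
    · have : {q : List (Fin n × Bool) | q.length = 0 ∧ ∃ p, p <:+ z ∧ (p, q) ∈ invFam n L} = ∅ := by
        ext q
        simp only [Set.mem_ofPred_eq, Set.mem_empty_iff_false, iff_false, not_and, not_exists]
        rintro hq p hp ⟨u, v, hu, hx, -, -⟩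
        simp only [Prod.mk.injEq] at hx
        rw [hx.2, invRev_length, List.length_eq_zero_iff] at hq
        exact hu hq
      rw [this]
      simp
    · refine encard_le_of_sub hL hj (fun m => invRev ((z.drop (z.length - m)).take j)) ?_
      rintro q ⟨hq, p, hp, u, v, hu, hx, h1, h2⟩
      simp only [Prod.mk.injEq] at hx
      obtain ⟨rfl, rfl⟩ := hx
      rw [invRev_length] at hq
      rw [hq] at h1 h2
      refine ⟨_, h1, h2, ?_⟩
      rw [drop_of_suffix hp, List.take_append_of_le_length (by omega), ← hq, List.take_length]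

theorem Thin.union3 {A : Type*} {L : ℕ} (hL : 1 ≤ L) {𝓐 𝓑 𝓒 : Set (List A × List A)}
    (ha : Thin L 𝓐) (hb : Thin L 𝓑) (hc : Thin L 𝓒) : Thin (3 * L) (𝓐 ∪ 𝓑 ∪ 𝓒) := by
  refine ⟨?_, fun z j => ?_⟩
  · rintro x ((hx | hx) | hx)
    · exact ha.1 x hx
    · exact hb.1 x hx
    · exact hc.1 x hx
  · rcases Nat.eq_zero_or_pos j with rfl | hj
    · have : {q : List A | q.length = 0 ∧ ∃ p, p <:+ z ∧ (p, q) ∈ 𝓐 ∪ 𝓑 ∪ 𝓒} = ∅ := by
        ext q
        simp only [Set.mem_ofPred_eq, Set.mem_empty_iff_false, iff_false, not_and, not_exists]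
        rintro hq p hp hx
        rw [List.length_eq_zero_iff] at hq
        rcases hx with ((hx | hx) | hx)
        · exact ha.1 _ hx hq
        · exact hb.1 _ hx hq
        · exact hc.1 _ hx hq
      rw [this]
      simp
    · have hsub : {q : List A | q.length = j ∧ ∃ p, p <:+ z ∧ (p, q) ∈ 𝓐 ∪ 𝓑 ∪ 𝓒} ⊆
          {q : List A | q.length = j ∧ ∃ p, p <:+ z ∧ (p, q) ∈ 𝓐} ∪
          {q : List A | q.length = j ∧ ∃ p, p <:+ z ∧ (p, q) ∈ 𝓑} ∪
          {q : List A | q.length = j ∧ ∃ p, p <:+ z ∧ (p, q) ∈ 𝓒} := by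
        rintro q ⟨hq, p, hp, ((hx | hx) | hx)⟩
        · exact Or.inl (Or.inl ⟨hq, p, hp, hx⟩)
        · exact Or.inl (Or.inr ⟨hq, p, hp, hx⟩)
        · exact Or.inr ⟨hq, p, hp, hx⟩
      refine (Set.encard_le_encard hsub).trans ((Set.encard_union_le _ _).trans
        ((add_le_add ((Set.encard_union_le _ _).trans (add_le_add (ha.2 z j) (hb.2 z j)))
          (hc.2 z j)).trans ?_))
      norm_cast
      rw [mul_pow]
      have h3 : 3 ≤ 3 ^ j := Nat.le_self_pow (by omega) 3
      nlinarith [Nat.zero_le (L ^ j)]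

theorem lthin_of_thin {K : ℕ} {𝓕 : Set (List (Fin n × Bool) × List (Fin n × Bool))}
    (h : Thin K 𝓕) :
    LThin K {x : List (Fin n × Bool) × List (Fin n × Bool) | (invRev x.2, invRev x.1) ∈ 𝓕} := by
  refine ⟨?_, fun z j => ?_⟩
  · rintro ⟨q, p⟩ hx h0
    simp only [Set.mem_ofPred_eq] at hx h0
    have := h.1 _ hx
    simp only [h0, invRev_empty] at this
    exact this rfl
  · refine le_trans ?_ (h.2 (invRev z) j)
    rw [← Function.Injective.encard_image (invRev_injective (α := Fin n))]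
    refine Set.encard_le_encard ?_
    rintro q' ⟨q, ⟨hq, p, ⟨r, hr⟩, hx⟩, rfl⟩
    refine ⟨by rw [invRev_length, hq], invRev p, ⟨invRev r, ?_⟩, hx⟩
    rw [← hr, invRev_append]

theorem isReduced_invRev {w : List (Fin n × Bool)} (h : IsReduced w) : IsReduced (invRev w) := by
  rw [isReduced_iff_not_step] at h ⊢
  intro L₂ hs
  apply h (invRev L₂)
  rw [← Red.step_invRev_iff, invRev_invRev]
  exact hs

end

/-- the criterion -/
theorem main {Γ : Type u} [Group Γ] {p : ℝ} (hp : 1 ≤ p)
    (h : ∀ f : Γ → ℂ, IsLittlewood f → Memℓp f (ENNReal.ofReal p)) :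
    ∃ C : ℝ, ∀ n L : ℕ, 1 ≤ L → C * (L : ℝ) ^ p ≤ n → ∀ (s : Fin n → Γ)
      (𝓕 : Set (List (Fin n × Bool) × List (Fin n × Bool))), Thin L 𝓕 →
      ∃ w : List (Fin n × Bool), w ≠ [] ∧ IsReduced w ∧ lift s (mk w) = 1 ∧
        (∀ x ∈ 𝓕, ¬ (x.1 ++ x.2) <:+: w) ∧
        ∀ u v : List (Fin n × Bool), u ≠ [] →
          (u ++ v ++ u <:+: w ∨ u ++ v ++ invRev u <:+: w) → L * u.length < (u ++ v).length := by
  obtain ⟨C, hC⟩ := main_left hp h
  refine ⟨C * 3 ^ p, fun n L hL1 hCn s 𝓕 h𝓕 => ?_⟩
  have hT : Thin (3 * L) (𝓕 ∪ powFam n L ∪ invFam n L) :=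
    h𝓕.union3 hL1 (thin_powFam hL1) (thin_invFam hL1)
  obtain ⟨w, hw0, hred, hav, hrel⟩ := hC n (3 * L) (by omega) (by
    push_cast
    rw [Real.mul_rpow (by norm_num) (by positivity), ← mul_assoc]
    exact hCn) s _ (lthin_of_thin hT)
  have hav' : ∀ x ∈ 𝓕 ∪ powFam n L ∪ invFam n L, ¬ (x.1 ++ x.2) <:+: invRev w := by
    rintro ⟨a, b⟩ hx hi
    refine hav (invRev b, invRev a) (by simpa [invRev_invRev] using hx) ?_
    obtain ⟨l, r, hlr⟩ := hi
    refine ⟨invRev r, invRev l, ?_⟩
    have := congrArg invRev hlr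
    rw [invRev_invRev] at this
    rw [← this]
    simp only [invRev_append, List.append_assoc]
  refine ⟨invRev w, ?_, isReduced_invRev hred, ?_, fun x hx => hav' x (Or.inl (Or.inl hx)), ?_⟩
  · intro h0
    apply hw0
    have := congrArg invRev h0
    rwa [invRev_invRev, invRev_empty] at this
  · rw [← inv_mk, _root_.map_inv, hrel, inv_one]
  · intro u v hu hi
    by_contra hlen
    push Not at hlen
    rcases hi with hi | hi
    · -- squares
      set q := (u ++ v).length with hq
      have hq1 : 1 ≤ q := by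
        rw [hq, List.length_append]
        have : 0 < u.length := List.length_pos_iff.2 hu
        omega
      obtain ⟨m, hm1, hm2, hm3, hm4⟩ : ∃ m, 1 ≤ m ∧ m ≤ u.length ∧ L * (m - 1) < q ∧ q ≤ L * m := by
        classical
        have hex : ∃ m, q ≤ L * m := ⟨u.length, hlen⟩
        refine ⟨Nat.find hex, ?_, Nat.find_min' hex hlen, ?_, Nat.find_spec hex⟩
        · by_contra h0
          have h1 : Nat.find hex = 0 := by omega
          have h2 := Nat.find_spec hex
          rw [h1] at h2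
          omega
        · by_contra h0
          push Not at h0
          have h1 : Nat.find hex ≤ Nat.find hex - 1 := Nat.find_min' hex h0
          have h3 : Nat.find hex ≠ 0 := by
            intro h4
            have h2 := Nat.find_spec hex
            rw [h4] at h2
            omega
          omega
      obtain ⟨u1, u2, rfl, hu1⟩ : ∃ u1 u2, u = u1 ++ u2 ∧ u1.length = m :=
        ⟨u.take m, u.drop m, (List.take_append_drop _ _).symm, by simp [hm2]⟩
      refine hav' (u1 ++ (u2 ++ v), u1) (Or.inl (Or.inr ⟨u1, u2 ++ v, ?_, rfl, ?_, ?_⟩)) ?_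
      · intro h0
        rw [h0] at hu1
        simp at hu1
        omega
      · rw [hu1, ← List.append_assoc, ← hq]
        exact hm3
      · rw [hu1, ← List.append_assoc, ← hq]
        exact hm4
      · obtain ⟨l, r, hlr⟩ := hi
        refine ⟨l, u2 ++ r, ?_⟩
        rw [← hlr]
        simp
    · -- inverse pattern
      classical
      have hex : ∃ m, 1 ≤ m ∧ m + v.length ≤ L * m := by
        refine ⟨u.length, List.length_pos_iff.2 hu, ?_⟩
        simpa using hlen
      set m := Nat.find hex with hm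
      obtain ⟨hm1, hm2⟩ := Nat.find_spec hex
      rw [← hm] at hm1 hm2
      have hmu : m ≤ u.length := Nat.find_min' hex ⟨List.length_pos_iff.2 hu, by simpa using hlen⟩
      have hm3 : L * (m - 1) < m + v.length := by
        rcases Nat.eq_or_lt_of_le hm1 with h1 | h1
        · rw [← h1]; simp
        · by_contra h0
          push Not at h0
          have h2 : ¬ (1 ≤ m - 1 ∧ (m - 1) + v.length ≤ L * (m - 1)) :=
            Nat.find_min hex (by omega)
          apply h2
          omega
      obtain ⟨u1, u2, rfl, hu2⟩ : ∃ u1 u2, u = u1 ++ u2 ∧ u2.length = m := by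
        refine ⟨u.take (u.length - m), u.drop (u.length - m), (List.take_append_drop _ _).symm, ?_⟩
        rw [List.length_drop]
        omega
      refine hav' (u2 ++ v, invRev u2) (Or.inr ⟨u2, v, ?_, rfl, ?_, ?_⟩) ?_
      · intro h0
        rw [h0] at hu2
        simp at hu2
        omega
      · rw [hu2, List.length_append, hu2]
        exact hm3
      · rw [hu2, List.length_append, hu2]
        exact hm2
      · obtain ⟨l, r, hlr⟩ := hi
        refine ⟨l ++ u1, invRev u1 ++ r, ?_⟩
        rw [← hlr]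
        simp [invRev_append]

end Pool.Agent.H59.Thin
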