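import Pool.Agent.H59.Thin.Orient
import Pool.Agent.H58.Lit.Basic

open Finset
open scoped ENNReal

namespace Pool.Agent.H59.Thin

open Pool.Agent.H58.Lit

universe u

theorem geom_two : ∑' j : ℕ, ((2 : ℝ≥0∞)⁻¹) ^ j = 2 := by
  rw [ENNReal.tsum_geometric, ENNReal.one_sub_inv_two, inv_inv]

theorem tsum_mult {Γ : Type u} {n : ℕ} (s : Fin n → Γ) :
    ∑' g, ((Set.ncard {i : Fin n | s i = g} : ℕ) : ℝ≥0∞) = n := by
  classical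
  have hc : ∀ g, (((Set.ncard {i : Fin n | s i = g} : ℕ)) : ℝ≥0∞)
      = ∑ i, (if g = s i then 1 else 0 : ℝ≥0∞) := by
    intro g
    rw [Finset.sum_boole]
    congr 1
    rw [← Set.ncard_coe_finset]
    congr 1
    ext i
    simp [eq_comm]
  simp_rw [hc]
  rw [Summable.tsum_finsetSum (fun i _ => ENNReal.summable)]
  simp only [tsum_ite_eq, Finset.sum_const, Finset.card_univ, Fintype.card_fin, nsmul_eq_mul,
    mul_one]

theorem coef {k L : ℕ} (hL : 1 ≤ L) :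
    (((4 * 2 ^ k * L : ℕ)) : ℝ≥0∞)⁻¹ * ((4 * L : ℕ) : ℝ≥0∞) = ((2 : ℝ≥0∞)⁻¹) ^ k := by
  have h1 : ((4 * 2 ^ k * L : ℕ) : ℝ≥0∞) = (2 : ℝ≥0∞) ^ k * ((4 * L : ℕ) : ℝ≥0∞) := by
    push_cast; ring
  have h0 : ((4 * L : ℕ) : ℝ≥0∞) ≠ 0 := by
    simp only [ne_eq, Nat.cast_eq_zero]
    omega
  rw [h1, ENNReal.mul_inv (by simp) (by simp), mul_assoc,
    ENNReal.inv_mul_cancel h0 (ENNReal.natCast_ne_top _), mul_one, ENNReal.inv_pow]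

theorem nat_le_rpow (m : ℕ) {p : ℝ} (hp : 1 ≤ p) : (m : ℝ≥0∞) ≤ (m : ℝ≥0∞) ^ p := by
  rcases Nat.eq_zero_or_pos m with rfl | hm
  · simp
  · have h1 : (1 : ℝ≥0∞) ≤ m := by exact_mod_cast hm
    calc (m : ℝ≥0∞) = (m : ℝ≥0∞) ^ (1 : ℝ) := (ENNReal.rpow_one _).symm
      _ ≤ _ := ENNReal.rpow_le_rpow_of_exponent_le h1 hp

theorem lower {p : ℝ} (hp : 1 ≤ p) {k L n : ℕ} (hL : 1 ≤ L)
    (h : (k : ℝ) * (4 * 2 ^ k) ^ p * (L : ℝ) ^ p ≤ n) :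
    (k : ℝ≥0∞) ≤ ((((4 * 2 ^ k * L : ℕ)) : ℝ≥0∞)⁻¹) ^ p * n := by
  have hN : 0 < 4 * 2 ^ k * L := by positivity
  have h0 : ((4 * 2 ^ k * L : ℕ) : ℝ≥0∞) ^ p ≠ 0 := by
    have : ((4 * 2 ^ k * L : ℕ) : ℝ≥0∞) ≠ 0 := by exact_mod_cast hN.ne'
    intro h
    rw [ENNReal.rpow_eq_zero_iff] at h
    rcases h with h | h
    · exact this h.1
    · exact ENNReal.natCast_ne_top _ h.1
  have htop : ((4 * 2 ^ k * L : ℕ) : ℝ≥0∞) ^ p ≠ ⊤ :=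
    ENNReal.rpow_ne_top_of_nonneg (by linarith) (ENNReal.natCast_ne_top _)
  rw [ENNReal.inv_rpow, mul_comm, ← div_eq_mul_inv, ENNReal.le_div_iff_mul_le (Or.inl h0)
    (Or.inl htop)]
  have h1 : ((4 * 2 ^ k * L : ℕ) : ℝ≥0∞) ^ p = ENNReal.ofReal (((4 * 2 ^ k * L : ℕ) : ℝ) ^ p) := by
    rw [← ENNReal.ofReal_rpow_of_nonneg (by positivity) (by linarith), ENNReal.ofReal_natCast]
  rw [h1, ← ENNReal.ofReal_natCast k, ← ENNReal.ofReal_natCast n,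
    ← ENNReal.ofReal_mul (by positivity)]
  apply ENNReal.ofReal_le_ofReal
  refine le_trans (le_of_eq ?_) h
  push_cast
  rw [Real.mul_rpow (by positivity) (by positivity)]
  ring

/-- the criterion, mirrored form -/
theorem main_left {Γ : Type u} [Group Γ] {p : ℝ} (hp : 1 ≤ p)
    (h : ∀ f : Γ → ℂ, IsLittlewood f → Memℓp f (ENNReal.ofReal p)) :
    ∃ C : ℝ, ∀ n L : ℕ, 1 ≤ L → C * (L : ℝ) ^ p ≤ n → ∀ (s : Fin n → Γ)
      (𝓖 : Set (List (Fin n × Bool) × List (Fin n × Bool))), LThin L 𝓖 → HasRel s 𝓖 := by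
  classical
  by_contra hcon
  push Not at hcon
  have hk : ∀ k : ℕ, ∃ n L : ℕ, 1 ≤ L ∧ (k : ℝ) * (4 * 2 ^ k) ^ p * (L : ℝ) ^ p ≤ n ∧
      ∃ (s : Fin n → Γ) (h₁ h₂ : Γ → Γ → ℝ≥0∞),
      (∀ x y, (((Set.ncard {i : Fin n | s i = x⁻¹ * y} : ℕ)) : ℝ≥0∞) ≤ h₁ x y + h₂ x y) ∧
      (∀ x, ∑' y, h₁ x y ≤ ((4 * L : ℕ) : ℝ≥0∞)) ∧
      (∀ y, ∑' x, h₂ x y ≤ ((4 * L : ℕ) : ℝ≥0∞)) := by
    intro k
    obtain ⟨n, L, hL1, hC, s, 𝓖, hT, hR⟩ := hcon ((k : ℝ) * (4 * 2 ^ k) ^ p)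
    obtain ⟨h₁, h₂, h3⟩ := kernel_exists s hL1 hT hR
    exact ⟨n, L, hL1, hC, s, h₁, h₂, h3⟩
  choose n L hL1 hC s h₁ h₂ hm hr hc using hk
  let a : ℕ → ℝ≥0∞ := fun k => (((4 * 2 ^ k * L k : ℕ)) : ℝ≥0∞)⁻¹
  have ha : ∀ k, a k * ((4 * L k : ℕ) : ℝ≥0∞) = ((2 : ℝ≥0∞)⁻¹) ^ k := fun k => coef (hL1 k)
  let m : ℕ → Γ → ℝ≥0∞ := fun k g => ((Set.ncard {i : Fin (n k) | s k i = g} : ℕ) : ℝ≥0∞)
  let F : Γ → ℝ≥0∞ := fun g => ∑' k : ℕ, a k * m k g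
  have hFle : ∀ x y, F (x⁻¹ * y) ≤ (∑' k : ℕ, a k * h₁ k x y) + ∑' k : ℕ, a k * h₂ k x y := by
    intro x y
    rw [← ENNReal.tsum_add]
    refine ENNReal.tsum_le_tsum fun k => ?_
    rw [← mul_add]
    gcongr
    exact hm k x y
  have hrow : ∀ x, ∑' y, ∑' k : ℕ, a k * h₁ k x y ≤ 2 := by
    intro x
    rw [ENNReal.tsum_comm]
    calc ∑' k : ℕ, ∑' y, a k * h₁ k x y
        ≤ ∑' k : ℕ, ((2 : ℝ≥0∞)⁻¹) ^ k := by
          refine ENNReal.tsum_le_tsum fun k => ?_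
          rw [ENNReal.tsum_mul_left, ← ha]
          gcongr
          exact hr k x
      _ = 2 := geom_two
  have hcol : ∀ y, ∑' x, ∑' k : ℕ, a k * h₂ k x y ≤ 2 := by
    intro y
    rw [ENNReal.tsum_comm]
    calc ∑' k : ℕ, ∑' x, a k * h₂ k x y
        ≤ ∑' k : ℕ, ((2 : ℝ≥0∞)⁻¹) ^ k := by
          refine ENNReal.tsum_le_tsum fun k => ?_
          rw [ENNReal.tsum_mul_left, ← ha]
          gcongr
          exact hc k y
      _ = 2 := geom_two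
  have hFtop : ∀ g, F g ≠ ⊤ := by
    intro g
    have h1 := hFle 1 g
    simp only [inv_one, one_mul] at h1
    have h2 : ∑' k : ℕ, a k * h₁ k 1 g ≤ 2 := (ENNReal.le_tsum g).trans (hrow 1)
    have h3 : ∑' k : ℕ, a k * h₂ k 1 g ≤ 2 :=
      (ENNReal.le_tsum (f := fun x => ∑' k : ℕ, a k * h₂ k x g) 1).trans (hcol g)
    exact ne_top_of_le_ne_top (by simp : (2 + 2 : ℝ≥0∞) ≠ ⊤) (h1.trans (add_le_add h2 h3))
  let f : Γ → ℂ := fun g => ((F g).toReal : ℂ)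
  have hf : ∀ g, ‖f g‖ₑ = F g := by
    intro g
    have h0 : (0 : ℝ) ≤ (F g).toReal := ENNReal.toReal_nonneg
    rw [← ofReal_norm]
    simp only [f, Complex.norm_real, Real.norm_eq_abs, abs_of_nonneg h0]
    exact ENNReal.ofReal_toReal (hFtop g)
  have hLw : IsLittlewood f := by
    refine isLittlewood_of_le (C₁ := 2) (C₂ := 2)
      (h₁ := fun x y => ∑' k : ℕ, a k * h₁ k x y)
      (h₂ := fun x y => ∑' k : ℕ, a k * h₂ k x y)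
      (by simp) (by simp) ?_ hrow hcol
    intro x y
    rw [hf]
    exact hFle x y
  have hp0 : 0 < p := by linarith
  have hmem := (memℓp_iff_tsum (ENNReal.ofReal_pos.2 hp0) ENNReal.ofReal_lt_top).1 (h f hLw)
  rw [ENNReal.toReal_ofReal hp0.le] at hmem
  apply hmem
  have key : ∀ k : ℕ, (k : ℝ≥0∞) ≤ ∑' g, ‖f g‖ₑ ^ p := by
    intro k
    calc (k : ℝ≥0∞) ≤ (a k) ^ p * n k := lower hp (hL1 k) (hC k)
      _ = ∑' g, (a k) ^ p * m k g := by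
          rw [ENNReal.tsum_mul_left, tsum_mult]
      _ ≤ ∑' g, (a k * m k g) ^ p := by
          refine ENNReal.tsum_le_tsum fun g => ?_
          rw [ENNReal.mul_rpow_of_nonneg _ _ hp0.le]
          gcongr
          exact nat_le_rpow _ hp
      _ ≤ ∑' g, ‖f g‖ₑ ^ p := by
          refine ENNReal.tsum_le_tsum fun g => ?_
          rw [hf]
          refine ENNReal.rpow_le_rpow ?_ hp0.le
          exact ENNReal.le_tsum (f := fun k => a k * m k g) k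
  rw [eq_top_iff]
  refine ENNReal.le_of_forall_nnreal_lt fun r _ => ?_
  obtain ⟨k, hk⟩ := exists_nat_ge r
  calc (r : ℝ≥0∞) ≤ ((k : NNReal) : ℝ≥0∞) := by exact_mod_cast hk
    _ = (k : ℝ≥0∞) := by simp
    _ ≤ _ := key k

end Pool.Agent.H59.Thin
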