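import Mathlib

open Finset

namespace Pool.Agent.H59.Thin

universe u

/-- A set `𝓕` of cut words `(p, q)` (that is, words `p ++ q` with a marked cut) is `L`-thin if
all second parts `q` are nonempty and if for every word `z` and every `j` at most `L ^ j` words
`q` of length `j` complete `z`, i.e. satisfy `(p, q) ∈ 𝓕` for some suffix `p` of `z`. -/
def Thin {A : Type*} (L : ℕ) (𝓕 : Set (List A × List A)) : Prop :=
  (∀ x ∈ 𝓕, x.2 ≠ []) ∧ ∀ (z : List A) (j : ℕ),
    {q : List A | q.length = j ∧ ∃ p : List A, p <:+ z ∧ (p, q) ∈ 𝓕}.encard ≤ ((L ^ j : ℕ) : ℕ∞)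

/-- the mirrored notion: `x.1 ++ x.2` with `x.1` the new part, on the left -/
def LThin {A : Type*} (L : ℕ) (𝓖 : Set (List A × List A)) : Prop :=
  (∀ x ∈ 𝓖, x.1 ≠ []) ∧ ∀ (z : List A) (j : ℕ),
    {q : List A | q.length = j ∧ ∃ p : List A, p <+: z ∧ (q, p) ∈ 𝓖}.encard ≤ ((L ^ j : ℕ) : ℕ∞)

/-- `w` contains no word of the family as a factor -/
def Avoids {A : Type*} (𝓕 : Set (List A × List A)) (w : List A) : Prop :=
  ∀ x ∈ 𝓕, ¬ (x.1 ++ x.2) <:+: w

theorem Avoids.factor {A : Type*} {𝓕 : Set (List A × List A)} {v w : List A}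
    (hw : Avoids 𝓕 w) (h : v <:+: w) : Avoids 𝓕 v :=
  fun x hx hi => hw x hx (hi.trans h)

theorem red_factor {α : Type*} {v w : List (α × Bool)} (hw : FreeGroup.IsReduced w)
    (h : v <:+: w) : FreeGroup.IsReduced v := by
  obtain ⟨l, r, rfl⟩ := h
  exact (List.isChain_append.1 (List.isChain_append.1 hw).1).2.1

theorem avoids_nil {A : Type*} {𝓕 : Set (List A × List A)} (h : ∀ x ∈ 𝓕, x.1 ≠ []) :
    Avoids 𝓕 [] := by
  intro x hx hi
  obtain ⟨l, r, hlr⟩ := hi
  simp at hlr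
  exact h x hx hlr.2.1

section

variable {Γ : Type u} [Group Γ] {n : ℕ} (s : Fin n → Γ)

/-- the value of a letter -/
def val (a : Fin n × Bool) : Γ := cond a.2 (s a.1) (s a.1)⁻¹

/-- the inverse letter -/
def inv (a : Fin n × Bool) : Fin n × Bool := (a.1, !a.2)

theorem val_inv (a : Fin n × Bool) : val s (inv a) = (val s a)⁻¹ := by
  rcases a with ⟨i, b⟩
  cases b <;> simp [val, inv]

/-- there is a nonempty reduced relation in the family `s` which avoids `𝓖` -/
def HasRel (𝓖 : Set (List (Fin n × Bool) × List (Fin n × Bool))) : Prop :=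
  ∃ w : List (Fin n × Bool), w ≠ [] ∧ FreeGroup.IsReduced w ∧ Avoids 𝓖 w ∧
    FreeGroup.lift s (FreeGroup.mk w) = 1

/-- the end point of a word read from `v` (last letter first) -/
def en (v : Γ) : List (Fin n × Bool) → Γ
  | [] => v
  | a :: w => val s a * en v w

theorem en_eq (v : Γ) (w : List (Fin n × Bool)) : en s v w = (w.map (val s)).prod * v := by
  induction w with
  | nil => simp [en]
  | cons a w ih => simp [en, ih, mul_assoc]

variable (𝓖 : Set (List (Fin n × Bool) × List (Fin n × Bool)))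

/-- a good word -/
def Good (F : Finset Γ) (v : Γ) (w : List (Fin n × Bool)) : Prop :=
  en s v w ∈ F ∧ FreeGroup.IsReduced w ∧ Avoids 𝓖 w

open Classical in
/-- the good words of length `t` all of whose suffixes are good -/
noncomputable def P (F : Finset Γ) (v : Γ) : ℕ → Finset (List (Fin n × Bool))
  | 0 => {[]}
  | t + 1 => (((P F v t) ×ˢ (univ : Finset (Fin n × Bool))).filter
      (fun p => Good s 𝓖 F v (p.2 :: p.1))).image (fun p => p.2 :: p.1)

theorem cons_mem_P (F : Finset Γ) (v : Γ) (t : ℕ) (a : Fin n × Bool)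
    (w : List (Fin n × Bool)) :
    a :: w ∈ P s 𝓖 F v (t + 1) ↔ w ∈ P s 𝓖 F v t ∧ Good s 𝓖 F v (a :: w) := by
  classical
  simp only [P, Finset.mem_image, Finset.mem_filter, Finset.mem_product, Finset.mem_univ,
    and_true, List.cons.injEq]
  constructor
  · rintro ⟨p, ⟨h1, h2⟩, h3, h4⟩
    rw [h3, h4] at h2
    rw [h4] at h1
    exact ⟨h1, h2⟩
  · rintro ⟨h1, h2⟩
    exact ⟨(w, a), ⟨h1, h2⟩, rfl, rfl⟩

theorem mem_P_succ_exists {F : Finset Γ} {v : Γ} {t : ℕ} {x : List (Fin n × Bool)}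
    (hx : x ∈ P s 𝓖 F v (t + 1)) : ∃ a w, x = a :: w ∧ w ∈ P s 𝓖 F v t := by
  classical
  simp only [P, Finset.mem_image, Finset.mem_filter, Finset.mem_product, Finset.mem_univ,
    and_true] at hx
  obtain ⟨p, ⟨h1, h2⟩, h3⟩ := hx
  exact ⟨p.2, p.1, h3.symm, h1⟩

theorem length_of_mem_P {F : Finset Γ} {v : Γ} {t : ℕ} {x : List (Fin n × Bool)}
    (hx : x ∈ P s 𝓖 F v t) : x.length = t := by
  induction t generalizing x with
  | zero => simp [P] at hx; simp [hx]
  | succ t ih =>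
    obtain ⟨a, w, rfl, hw⟩ := mem_P_succ_exists s 𝓖 hx
    simp [ih hw]

theorem drop_mem_P {F : Finset Γ} {v : Γ} {t j : ℕ} (hj : j ≤ t) {x : List (Fin n × Bool)}
    (hx : x ∈ P s 𝓖 F v t) : x.drop j ∈ P s 𝓖 F v (t - j) := by
  induction j generalizing x t with
  | zero => simpa using hx
  | succ j ih =>
    obtain ⟨t, rfl⟩ : ∃ t', t = t' + 1 := ⟨t - 1, by omega⟩
    obtain ⟨a, w, rfl, hw⟩ := mem_P_succ_exists s 𝓖 hx
    have := ih (by omega : j ≤ t) hw
    simpa using this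

theorem good_of_mem_P (h𝓖 : ∀ x ∈ 𝓖, x.1 ≠ []) {F : Finset Γ} {v : Γ} (hv : v ∈ F) {t : ℕ}
    {x : List (Fin n × Bool)} (hx : x ∈ P s 𝓖 F v t) : Good s 𝓖 F v x := by
  cases t with
  | zero =>
    simp [P] at hx
    subst hx
    exact ⟨hv, FreeGroup.IsReduced.nil, avoids_nil h𝓖⟩
  | succ t =>
    obtain ⟨a, w, rfl, hw⟩ := mem_P_succ_exists s 𝓖 hx
    exact ((cons_mem_P s 𝓖 F v t a w).1 hx).2

end

end Pool.Agent.H59.Thin
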